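import Pool.Agent.TH761.EA.Shift

/-!
# Edwards-Anderson ground states on cylinders: products of the line with finite graphs

Let `(V, s, t)` be any finite connected graph: `V` is the finite set of the vertices, `I` the finite
set of the edges, and the edge `i` joins `s i` and `t i` (loops and multiple edges are allowed). The
sites are the points of the cylinder `ℤ × V`. The bonds are indexed by `ℤ × (V ⊕ I)`: the bond
`(n, inl x)` joins `(n, x)` and `(n + 1, x)`, and the bond `(n, inr i)` joins `(n, s i)` and
`(n, t i)`. For instance, if `V` is a box of `ℤ^(d - 1)`, or a discrete torus of dimension `d - 1`,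
then the cylinder is a tube of `ℤ^d`, or a tube with periodic boundary conditions, which is infinite
in both directions.

The couplings are independent and identically distributed with a symmetric law without atoms. We
show that almost surely there is exactly one pair of ground states: no two infinite volume ground
states are incongruent, however they depend on the couplings.

The cylinder has two ends. Two ground states which agree up to a sign near each end could differ by
one domain wall that is pinned at the cheapest place; such a wall is excluded because the cost of the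
cheapest places is not attained, by stationarity. (In the starting result `UnboundedWidth` of this
problem the regions have one end, and no such wall exists.)

The proof is in the starting modules `Pool.Agent.TH761.EA.*`.
-/

set_option autoImplicit false

open MeasureTheory

namespace Pool.Agent.Results.MP_37ff18_mp.CylindersOverFiniteGraphs

variable {V I : Type}

/-- One end point of a bond. -/
def source (s : I → V) : ℤ × (V ⊕ I) → ℤ × V
  | (n, Sum.inl x) => (n, x)
  | (n, Sum.inr i) => (n, s i)

/-- The other end point of the bond. -/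
def target (t : I → V) : ℤ × (V ⊕ I) → ℤ × V
  | (n, Sum.inl x) => (n + 1, x)
  | (n, Sum.inr i) => (n, t i)

/-- A spin configuration. -/
def IsConfiguration (σ : ℤ × V → ℝ) : Prop := ∀ v, σ v = 1 ∨ σ v = -1

/-- `σ` is an infinite-volume ground state for the couplings `J`: every change at finitely many sites
(at least one) increases the energy `- ∑ J e σ (source e) σ (target e)`. -/
def IsGroundState (s t : I → V) (J : ℤ × (V ⊕ I) → ℝ) (σ : ℤ × V → ℝ) : Prop :=
  IsConfiguration σ ∧ ∀ ρ : ℤ × V → ℝ, IsConfiguration ρ → {v | ρ v ≠ σ v}.Finite → ρ ≠ σ →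
    0 < ∑ᶠ e : ℤ × (V ⊕ I),
      J e * (σ (source s e) * σ (target t e) - ρ (source s e) * ρ (target t e))

/-- The graph with the edges `{s i, t i}` is connected. -/
def Connected (s t : I → V) : Prop :=
  Nonempty V ∧ ∀ x y : V, Relation.EqvGen (fun a b => ∃ i, s i = a ∧ t i = b) x y

theorem bd_eq (s t : I → V) (σ : ℤ × V → ℝ) (e : ℤ × (V ⊕ I)) :
    Pool.Agent.TH761.EA.bd s t σ e = σ (source s e) * σ (target t e) := by
  obtain ⟨n, x | i⟩ := e <;> rfl

theorem energy_eq [Fintype V] [Fintype I] (s t : I → V) (J : ℤ × (V ⊕ I) → ℝ)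
    (σ ρ : ℤ × V → ℝ) (p q : ℤ) (h : ∀ n x, n ≤ p ∨ q ≤ n → ρ (n, x) = σ (n, x)) :
    ∑ᶠ e : ℤ × (V ⊕ I),
      J e * (σ (source s e) * σ (target t e) - ρ (source s e) * ρ (target t e)) =
      Pool.Agent.TH761.EA.S s t J σ p q - Pool.Agent.TH761.EA.S s t J ρ p q := by
  classical
  have hsub : Function.support (fun e : ℤ × (V ⊕ I) =>
      J e * (σ (source s e) * σ (target t e) - ρ (source s e) * ρ (target t e))) ⊆
      ((Finset.Ico p q ×ˢ (Finset.univ : Finset (V ⊕ I)) : Finset (ℤ × (V ⊕ I))) :
        Set (ℤ × (V ⊕ I))) := by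
    intro e he
    by_contra hn
    apply he
    have hn' : ¬ (p ≤ e.1 ∧ e.1 < q) := by
      intro h1
      exact hn (by simp [h1.1, h1.2])
    have hout : ∀ x, ρ (e.1, x) = σ (e.1, x) := fun x => h e.1 x (by omega)
    have hout' : ∀ x, ρ (e.1 + 1, x) = σ (e.1 + 1, x) := fun x => h (e.1 + 1) x (by omega)
    obtain ⟨n, x | i⟩ := e
    · simp only [source, target]
      rw [hout, hout']
      ring
    · simp only [source, target]
      rw [hout, hout]
      ring
  rw [finsum_eq_sum_of_support_subset _ hsub, Finset.sum_product]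
  unfold Pool.Agent.TH761.EA.S Pool.Agent.TH761.EA.en
  rw [← Finset.sum_sub_distrib]
  refine Finset.sum_congr rfl fun n _ => ?_
  rw [← Finset.sum_sub_distrib]
  refine Finset.sum_congr rfl fun c _ => ?_
  rw [bd_eq, bd_eq]
  ring

theorem ground_iff [Fintype V] [Fintype I] (s t : I → V) (J : ℤ × (V ⊕ I) → ℝ)
    (σ : ℤ × V → ℝ) : Pool.Agent.TH761.EA.Gr s t J σ ↔ IsGroundState s t J σ := by
  constructor
  · rintro ⟨h1, h2⟩
    refine ⟨h1, fun ρ hρ hfin hne => ?_⟩
    obtain ⟨a, ha⟩ := (hfin.image Prod.fst).bddBelow
    obtain ⟨b, hb⟩ := (hfin.image Prod.fst).bddAbove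
    have hag : ∀ n x, n ≤ a - 1 ∨ b + 1 ≤ n → ρ (n, x) = σ (n, x) := by
      intro n x hn
      by_contra hcon
      have h3 : n ∈ Prod.fst '' {v | ρ v ≠ σ v} := ⟨(n, x), hcon, rfl⟩
      have h4 := ha h3
      have h5 := hb h3
      omega
    rw [energy_eq s t J σ ρ (a - 1) (b + 1) hag]
    have := h2 (a - 1) (b + 1) ρ hρ hag hne
    linarith
  · rintro ⟨h1, h2⟩
    refine ⟨h1, fun p q ρ hρ hag hne => ?_⟩
    have hfin : {v | ρ v ≠ σ v}.Finite := by
      refine Set.Finite.subset ((Set.finite_Icc p q).prod (Set.finite_univ : (Set.univ : Set V).Finite)) ?_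
      rintro ⟨n, x⟩ hv
      refine ⟨?_, Set.mem_univ _⟩
      by_contra hcon
      rw [Set.mem_Icc, not_and_or] at hcon
      exact hv (hag n x (by omega))
    have h3 := h2 ρ hρ hfin hne
    rw [energy_eq s t J σ ρ p q hag] at h3
    linarith

/-- **Theorem.** For every finite connected graph and every symmetric probability measure `μ` on `ℝ`
without atoms, for almost every realisation of i.i.d. couplings of law `μ` on the bonds of the
cylinder over the graph, there is exactly one pair `σ, -σ` of ground states. -/
theorem result (V I : Type) [Fintype V] [Fintype I] (s t : I → V) (hG : Connected s t)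
    (μ : Measure ℝ) [IsProbabilityMeasure μ]
    (hatom : ∀ x : ℝ, μ {x} = 0) (hsym : μ.map (fun x => -x) = μ) :
    ∀ᵐ J ∂(Measure.infinitePi fun _ : ℤ × (V ⊕ I) => μ),
      ∃ σ : ℤ × V → ℝ, {ρ | IsGroundState s t J ρ} = {σ, -σ} := by
  have : Nonempty V := hG.1
  have hH : ∀ f : V → ℝ, (∀ i, f (s i) = f (t i)) → ∀ x y, f x = f y := by
    intro f hf x y
    induction hG.2 x y with
    | rel a b h => obtain ⟨i, rfl, rfl⟩ := h; exact hf i
    | refl a => rfl
    | symm a b _ ih => exact ih.symm
    | trans a b c _ _ ih1 ih2 => exact ih1.trans ih2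
  have hmain := Pool.Agent.TH761.EA.main (s := s) (t := t) μ hatom hsym hH
  unfold Pool.Agent.TH761.EA.Law at hmain
  filter_upwards [hmain] with J hJ
  obtain ⟨σ, hσ, huniq⟩ := hJ
  refine ⟨σ, ?_⟩
  have hneg : Pool.Agent.TH761.EA.Gr s t J (-σ) := by
    rw [ground_iff] at hσ ⊢
    refine ⟨fun v => ?_, fun ρ hρ hfin hne => ?_⟩
    · rcases hσ.1 v with h | h <;> simp [h]
    · have h1 := hσ.2 (-ρ) (fun v => by rcases hρ v with h | h <;> simp [h])
        (hfin.subset fun v hv hcon => hv (by
          simp only [Pi.neg_apply] at hcon ⊢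
          linarith)) (fun hcon => hne (by rw [← hcon, neg_neg]))
      simpa using h1
  ext ρ
  simp only [Set.mem_ofPred_eq, Set.mem_insert_iff, Set.mem_singleton_iff]
  rw [← ground_iff]
  constructor
  · exact huniq ρ
  · rintro (rfl | rfl)
    · exact hσ
    · exact hneg

end Pool.Agent.Results.MP_37ff18_mp.CylindersOverFiniteGraphs
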