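import Pool.Agent.X215.DH.Final

/-!
# Edwards-Anderson ground states on two-ended horns of unbounded width in `ℤ^d`

The sites are the points of `ℤ^(k + 1)`; the bond `(v, i)` joins `v` and `v + e_i`, as in the frozen
statement of the problem. The region has two ends, both of unbounded width. The new point compared
with one-ended horns is that a domain wall between the two ends has to be excluded.
-/

set_option autoImplicit false

open MeasureTheory

namespace Pool.Agent.Results.MP_37ff18_mp.DoubleHorns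

/-- The two-ended horn: the points `v` of `ℤ^(k + 1)` with `|v i| ≤ w (v 0)` for all `i ≠ 0`; the
width `w n` is given for all integers `n`, positive and negative. -/
def doubleHorn (k : ℕ) (w : ℤ → ℕ) : Set (Fin (k + 1) → ℤ) :=
  {v | ∀ i : Fin k, |v i.succ| ≤ (w (v 0) : ℤ)}

/-- A spin configuration on the region `R`: it is `1` or `-1` at the sites of `R`, and `0` at the
other sites (so that the bonds which leave `R` do not contribute to the energy). -/
def IsConfiguration {k : ℕ} (R : Set (Fin (k + 1) → ℤ)) (σ : (Fin (k + 1) → ℤ) → ℝ) : Prop :=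
  (∀ v ∈ R, σ v = 1 ∨ σ v = -1) ∧ ∀ v, v ∉ R → σ v = 0

/-- `σ` is an infinite-volume ground state on `R` for the couplings `J`: every change at finitely
many sites of `R` (at least one) increases the energy `- ∑ J (v, i) σ v σ (v + e_i)`. -/
def IsGroundState {k : ℕ} (R : Set (Fin (k + 1) → ℤ))
    (J : (Fin (k + 1) → ℤ) × Fin (k + 1) → ℝ) (σ : (Fin (k + 1) → ℤ) → ℝ) : Prop :=
  IsConfiguration R σ ∧ ∀ ρ : (Fin (k + 1) → ℤ) → ℝ, IsConfiguration R ρ →
    {v | ρ v ≠ σ v}.Finite → ρ ≠ σ →
      0 < ∑ᶠ e : (Fin (k + 1) → ℤ) × Fin (k + 1),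
        J e * (σ e.1 * σ (e.1 + (Pi.single e.2 (1 : ℤ) : Fin (k + 1) → ℤ))
          - ρ e.1 * ρ (e.1 + (Pi.single e.2 (1 : ℤ) : Fin (k + 1) → ℤ)))

/-- **Theorem.** Let `k ≥ 1`, and let the widths `w n` be nondecreasing in both directions away from
`0`, with `w n ^ (2 k) = o (log |n|)` for `n → ∞` and for `n → -∞`. Let `μ` be a symmetric
probability measure on `ℝ` without atoms with `μ (-x, x) ≥ κ x ^ q` for all `0 < x ≤ 1` (for some
`κ > 0` and `q`; for example a normal law, or any law with a density which is bounded below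
near `0`). For almost every realisation of i.i.d. couplings of law `μ` on the bonds of `ℤ^(k + 1)`
there is exactly one pair `σ, -σ` of ground states on the two-ended horn of width `w`. -/
theorem result (k : ℕ) (hk : 1 ≤ k) (w : ℤ → ℕ)
    (hright : Monotone fun n : ℕ => w n) (hleft : Monotone fun n : ℕ => w (-n))
    (growth_right : Filter.Tendsto (fun n : ℕ => (w n : ℝ) ^ (2 * k) / Real.log n)
      Filter.atTop (nhds 0))
    (growth_left : Filter.Tendsto (fun n : ℕ => (w (-n) : ℝ) ^ (2 * k) / Real.log n)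
      Filter.atTop (nhds 0))
    (μ : Measure ℝ) [IsProbabilityMeasure μ]
    (hatom : ∀ x : ℝ, μ {x} = 0) (hsym : μ.map (fun x => -x) = μ)
    (κ : ℝ) (q : ℕ) (hκ : 0 < κ)
    (hzero : ∀ x : ℝ, 0 < x → x ≤ 1 → ENNReal.ofReal (κ * x ^ q) ≤ μ (Set.Ioo (-x) x)) :
    ∀ᵐ J ∂(Measure.infinitePi fun _ : (Fin (k + 1) → ℤ) × Fin (k + 1) => μ),
      ∃ σ : (Fin (k + 1) → ℤ) → ℝ, {ρ | IsGroundState (doubleHorn k w) J ρ} = {σ, -σ} :=
  Pool.Agent.X215.DH.main (k := k) (w := w) μ hk hright hleft growth_right growth_left hatom hsym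
    hκ hzero

end Pool.Agent.Results.MP_37ff18_mp.DoubleHorns
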