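import Pool.Agent.X73.EA.Prob

/-!
# Edwards-Anderson ground states on graphs with finitely many thin ends

`MP_37ff18_mp` asks whether the Edwards-Anderson model on `ℤ^d` can have incongruent ground states.
Here the lattice is replaced by an arbitrary infinite connected locally finite multigraph which has
finitely many ends, each of them thin: there are infinitely many disjoint connected gates with a
bounded number of bonds which separate the end from the rest of the graph.  No homogeneity is
assumed: the parts between the gates may have any size, any shape and any dimension, and the graph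
may have any finite number of ends.  We show that almost surely there is exactly one pair of ground
states, for iid couplings with any law without atoms (symmetric or not) which has `0` in its
support.

Proof.  With positive probability the couplings inside a gate are on different scales and those at
its boundary are much smaller; then two ground states agree, or disagree, on the whole gate.
Infinitely many gates of each end are good, and so the set where two ground states agree or its
complement contains the end.  If the ends are not all of the same kind, a finite wall separates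
them; its energy is not zero, has opposite signs for the two ground states, and can be moved through
a cheap gate far away, which is a contradiction.
-/

set_option autoImplicit false

open MeasureTheory

namespace Pool.Agent.Results.MP_37ff18_mp.FinitelyManyThinEnds

variable {V E : Type}

/-- A spin configuration. -/
def IsConfiguration (σ : V → ℝ) : Prop := ∀ v, σ v = 1 ∨ σ v = -1

/-- `σ` is an infinite-volume ground state for the couplings `J` on the graph with the bonds
`{src e, tgt e}`: every change at finitely many sites (at least one) increases the energy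
`- ∑ J e σ (src e) σ (tgt e)`. -/
def IsGroundState (src tgt : E → V) (J : E → ℝ) (σ : V → ℝ) : Prop :=
  IsConfiguration σ ∧ ∀ ρ : V → ℝ, IsConfiguration ρ → {v | ρ v ≠ σ v}.Finite → ρ ≠ σ →
    0 < ∑ᶠ e : E, J e * (σ (src e) * σ (tgt e) - ρ (src e) * ρ (tgt e))

/-- Every vertex has finitely many bonds. -/
def LocallyFinite (src tgt : E → V) : Prop := ∀ v, {e | src e = v ∨ tgt e = v}.Finite

/-- The subgraph induced on the set `C` of vertices is connected: every subset other than `∅` and
`C` is joined to the rest of `C` by a bond. -/
def ConnectedOn (src tgt : E → V) (C : Set V) : Prop :=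
  ∀ A ⊆ C, A.Nonempty → A ≠ C → ∃ e, src e ∈ C ∧ tgt e ∈ C ∧ ¬ (src e ∈ A ↔ tgt e ∈ A)

/-- Finitely many thin ends: for each of the ends `i < k` there are finite connected gates `C i n`
with at most `M` incident bonds and tails `U i n`, such that `C i n` separates `U i n` from the rest
of the graph, `U i n` contains `C i (n + 1)` and `U i (n + 1)`, and only finitely many vertices of
`U i n` are not in `U i (n + 1)`; every vertex is outside of `U i n` for some `n`, and all but
finitely many vertices are in some `U i 0`. -/
def HasThinEnds (src tgt : E → V) : Prop :=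
  ∃ (k M : ℕ) (C : Fin k → ℕ → Finset V) (U : Fin k → ℕ → Set V), 0 < k ∧
    (∀ i n, (C i n).Nonempty ∧ ConnectedOn src tgt (C i n : Set V) ∧
      {e | src e ∈ C i n ∨ tgt e ∈ C i n}.ncard ≤ M ∧ (∀ v ∈ C i n, v ∉ U i n)) ∧
    (∀ i n e, (src e ∈ U i n → tgt e ∈ U i n ∨ tgt e ∈ C i n) ∧
      (tgt e ∈ U i n → src e ∈ U i n ∨ src e ∈ C i n)) ∧
    (∀ i n, (C i (n + 1) : Set V) ⊆ U i n ∧ U i (n + 1) ⊆ U i n ∧ (U i n \ U i (n + 1)).Finite) ∧
    (∀ i v, ∃ n, v ∉ U i n) ∧ {v | ∀ i, v ∉ U i 0}.Finite

open Pool.Agent.X73.EA in
theorem ground_iff {src tgt : E → V} (h : LocFin src tgt) (J : E → ℝ) (σ : V → ℝ) :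
    Gr h J σ ↔ IsGroundState src tgt J σ := by
  classical
  -- the energy difference for the flip of a finite set
  have key : ∀ (ρ : V → ℝ) (A : Finset V), IsConfiguration σ → IsConfiguration ρ →
      (∀ v, v ∈ A ↔ ρ v ≠ σ v) →
      ∑ᶠ e : E, J e * (σ (src e) * σ (tgt e) - ρ (src e) * ρ (tgt e)) =
        2 * ∑ e ∈ bd h A, J e * (σ (src e) * σ (tgt e)) := by
    intro ρ A hσ hρ hA
    have hflip : ∀ v, ρ v = if v ∈ A then -σ v else σ v := by
      intro v
      split_ifs with hv
      · rw [hA] at hv
        rcases hσ v with a | a <;> rcases hρ v with b | b <;> rw [a, b] at hv ⊢ <;>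
          first | (norm_num; done) | exact absurd rfl hv
      · rw [hA, not_not] at hv
        exact hv
    rw [finsum_eq_sum_of_support_subset (s := bd h A), Finset.mul_sum]
    · refine Finset.sum_congr rfl fun e he => ?_
      rw [mem_bd] at he
      rw [hflip (src e), hflip (tgt e)]
      by_cases h1 : src e ∈ A
      · rw [if_pos h1, if_neg fun h2 => he ⟨fun _ => h2, fun _ => h1⟩]; ring
      · have h2 : tgt e ∈ A := by
          by_contra h2
          exact he ⟨fun h3 => absurd h3 h1, fun h3 => absurd h3 h2⟩
        rw [if_neg h1, if_pos h2]; ring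
    · intro e he
      rw [Finset.mem_coe, mem_bd]
      intro hiff
      apply he
      simp only
      rw [hflip (src e), hflip (tgt e)]
      by_cases h1 : src e ∈ A
      · rw [if_pos h1, if_pos (hiff.1 h1)]; ring
      · rw [if_neg h1, if_neg fun h2 => h1 (hiff.2 h2)]; ring
  constructor
  · rintro ⟨h1, h2⟩
    refine ⟨h1, fun ρ hρ hfin hne => ?_⟩
    rw [key ρ hfin.toFinset h1 hρ (fun v => by simp)]
    have h3 : hfin.toFinset.Nonempty := by
      by_contra hcon
      rw [Finset.not_nonempty_iff_eq_empty] at hcon
      apply hne
      funext v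
      by_contra hv
      have : v ∈ hfin.toFinset := by simpa using hv
      rw [hcon] at this
      simp at this
    have := h2 _ h3
    linarith
  · rintro ⟨h1, h2⟩
    refine ⟨h1, fun A hA => ?_⟩
    have hne0 : ∀ v, σ v ≠ 0 := by
      intro v
      rcases h1 v with a | a <;> rw [a] <;> norm_num
    set ρ : V → ℝ := fun v => if v ∈ A then -σ v else σ v with hρd
    have hA' : ∀ v, v ∈ A ↔ ρ v ≠ σ v := by
      intro v
      simp only [hρd]
      by_cases hv : v ∈ A
      · rw [if_pos hv]
        simp only [hv, ne_eq, true_iff]
        intro hcon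
        exact hne0 v (by linarith)
      · rw [if_neg hv]
        simp [hv]
    have hρ : IsConfiguration ρ := by
      intro v
      simp only [hρd]
      rcases h1 v with a | a <;> split_ifs <;> rw [a] <;> norm_num
    have hset : {v | ρ v ≠ σ v} = (A : Set V) := by
      ext v
      rw [Set.mem_ofPred_eq, Finset.mem_coe, hA']
    have h3 := h2 ρ hρ (by rw [hset]; exact A.finite_toSet) (by
      intro hcon
      obtain ⟨v, hv⟩ := hA
      exact (hA' v).1 hv (by rw [hcon]))
    rw [key ρ A h1 hρ hA'] at h3
    linarith

/-- **Theorem.** On every connected locally finite graph with finitely many thin ends, for iid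
couplings whose law has no atoms and has `0` in its support, there is almost surely exactly one pair
`σ`, `-σ` of ground states. -/
theorem result (V E : Type) [Countable E] (src tgt : E → V) (hloc : LocallyFinite src tgt)
    (hconn : ConnectedOn src tgt Set.univ) (hends : HasThinEnds src tgt)
    (μ : Measure ℝ) [IsProbabilityMeasure μ] (hatom : ∀ x : ℝ, μ {x} = 0)
    (hzero : ∀ ε : ℝ, 0 < ε → 0 < μ {x : ℝ | |x| < ε}) :
    ∀ᵐ J ∂(Measure.infinitePi fun _ : E => μ),
      ∃ σ : V → ℝ, {ρ | IsGroundState src tgt J ρ} = {σ, -σ} := by
  classical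
  obtain ⟨k, M, C, U, hk, h1, h2, h3, h4, h5⟩ := hends
  have hloc' : Pool.Agent.X73.EA.LocFin src tgt := hloc
  clear hloc
  have hE : Pool.Agent.X73.EA.Ends src tgt k C U :=
    { ne := fun i n => (h1 i n).1
      conn := fun i n => (h1 i n).2.1
      sep := h2
      disj := fun i n => (h1 i n).2.2.2
      gate := fun i n v hv => (h3 i n).1 (by simpa using hv)
      tail := fun i n v hv => (h3 i n).2.1 hv
      fin := fun i n => (h3 i n).2.2
      inter := h4
      core := h5 }
  have hinf : Infinite V := by
    have i₀ : Fin k := ⟨0, hk⟩
    refine Infinite.of_injective (fun n => (hE.ne i₀ n).choose) ?_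
    intro n m hnm
    by_contra hne
    have key : ∀ a b : ℕ, a < b → (hE.ne i₀ a).choose ≠ (hE.ne i₀ b).choose := by
      intro a b hab hcon
      have g1 := hE.gate' i₀ hab _ (hE.ne i₀ b).choose_spec
      rw [← hcon] at g1
      exact hE.disj i₀ a _ (hE.ne i₀ a).choose_spec g1
    rcases lt_or_gt_of_ne hne with g | g
    · exact key n m g hnm
    · exact key m n g hnm.symm
  have hV : ∀ A : Set V, A.Nonempty → A ≠ Set.univ →
      (Pool.Agent.X73.EA.cut src tgt A).Nonempty := by
    intro A hA hA'
    obtain ⟨e, _, _, he⟩ := hconn A (Set.subset_univ _) hA hA'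
    exact ⟨e, he⟩
  have hmain := hE.main μ hloc' hV M (fun i n => by
    have h6 := (h1 i n).2.2.1
    have h7 : {e | src e ∈ C i n ∨ tgt e ∈ C i n} =
        ((Pool.Agent.X73.EA.starF hloc' (C i n) : Finset E) : Set E) := by
      ext e
      exact (Pool.Agent.X73.EA.mem_starF hloc' (C i n) e).symm
    rw [h7, Set.ncard_coe_finset] at h6
    exact h6) hatom hzero
  filter_upwards [hmain] with J hJ
  obtain ⟨σ, hσ, huniq⟩ := hJ
  refine ⟨σ, ?_⟩
  have hneg : Pool.Agent.X73.EA.Gr hloc' J (-σ) := by
    refine ⟨fun v => ?_, fun A hA => ?_⟩
    · rcases hσ.1 v with h | h <;> simp [h]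
    · have := hσ.2 A hA
      simpa using this
  ext ρ
  simp only [Set.mem_ofPred_eq, Set.mem_insert_iff, Set.mem_singleton_iff]
  rw [← ground_iff hloc']
  constructor
  · exact huniq ρ
  · rintro (rfl | rfl)
    · exact hσ
    · exact hneg

end Pool.Agent.Results.MP_37ff18_mp.FinitelyManyThinEnds
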