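import Pool.Agent.X59.GC.F
import Pool.Agent.X59.GD.D
import Pool.Agent.X59.GD.One

/-!
# Edwards-Anderson ground states on `ℤ^d`: topologically typical couplings

For every `d ≥ 1` and every symmetric law `μ` without atoms the couplings in the support of `μ`
for which there is exactly one pair of ground states form a residual set.
-/

set_option autoImplicit false

open MeasureTheory Filter

namespace Pool.Agent.Results.MP_37ff18_mp.TypicalCouplings

/-- The bond `(v, i)` joins the sites `v` and `v + e_i` of `ℤ^d`. -/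
abbrev Bond (d : ℕ) : Type := (Fin d → ℤ) × Fin d

/-- `σ` is an infinite-volume ground state for the couplings `J`: every change at finitely many
sites (at least one) increases the energy `-∑ J_e σ σ` (the sum of the differences over all bonds
is a finite sum). -/
def IsGroundState {d : ℕ} (J : Bond d → ℝ) (σ : (Fin d → ℤ) → ℝ) : Prop :=
  (∀ x, σ x = 1 ∨ σ x = -1) ∧
  ∀ ρ : (Fin d → ℤ) → ℝ, (∀ x, ρ x = 1 ∨ ρ x = -1) → {x | ρ x ≠ σ x}.Finite → ρ ≠ σ →
    0 < ∑ᶠ e : Bond d, J e * (σ e.1 * σ (e.1 + (Pi.single e.2 (1 : ℤ) : Fin d → ℤ))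
      - ρ e.1 * ρ (e.1 + (Pi.single e.2 (1 : ℤ) : Fin d → ℤ)))

open Pool.Agent.TH761.EB in
theorem iff_gs {d : ℕ} (J : Bond d → ℝ) (σ : (Fin d → ℤ) → ℝ) :
    IsGroundState J σ ↔ GS (fun e : Bond d => e.1)
      (fun e => e.1 + (Pi.single e.2 (1 : ℤ) : Fin d → ℤ)) Set.univ J σ := by
  constructor
  · intro h
    refine ⟨⟨fun x _ => h.1 x, fun x hx => absurd (Set.mem_univ x) hx⟩, fun ρ hρ hf hne => ?_⟩
    exact h.2 ρ (fun x => hρ.1 x (Set.mem_univ x)) hf hne
  · intro h
    refine ⟨fun x => h.1.1 x (Set.mem_univ x), fun ρ hρ hf hne => ?_⟩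
    exact h.2 ρ ⟨fun x _ => hρ x, fun x hx => absurd (Set.mem_univ x) hx⟩ hf hne

/-- For every `d ≥ 1` and every symmetric atomless law `μ` on `ℝ`, all couplings `J` with values in
the support of `μ` on the bonds of `ℤ^d`, outside a meagre set, have exactly one pair `σ, -σ` of
ground states. -/
theorem result (d : ℕ) (hd : 1 ≤ d) (μ : Measure ℝ) [IsProbabilityMeasure μ]
    (hat : ∀ x, μ {x} = 0) (hsym : μ.map (fun x : ℝ => -x) = μ) :
    ∀ᶠ J in residual (Bond d → μ.support), ∃ σ : (Fin d → ℤ) → ℝ,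
      ∀ τ : (Fin d → ℤ) → ℝ, IsGroundState (fun e => (J e : ℝ)) τ ↔ τ = σ ∨ τ = -σ := by
  obtain ⟨a, ha, h1, h2⟩ := Pool.Agent.X59.GC.sym_support μ hat hsym
  have hP := Pool.Agent.X59.GC.perf_support μ hat
  rcases Nat.lt_or_ge d 2 with h | h
  · obtain rfl : d = 1 := by omega
    filter_upwards [Pool.Agent.X59.GD1.typical hP] with J hJ
    obtain ⟨σ, hσ, h3⟩ := hJ
    refine ⟨σ, fun τ => ?_⟩
    rw [iff_gs]
    constructor
    · exact h3 τ
    · rintro (rfl | rfl)
      · exact hσ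
      · exact hσ.neg
  · obtain ⟨k, rfl⟩ : ∃ k, d = k + 2 := ⟨d - 2, by omega⟩
    filter_upwards [Pool.Agent.X59.GD.typical (k := k) hP ha h1 h2] with J hJ
    obtain ⟨σ, hσ, h3⟩ := hJ
    refine ⟨σ, fun τ => ?_⟩
    rw [iff_gs]
    constructor
    · exact h3 τ
    · rintro (rfl | rfl)
      · exact hσ
      · exact hσ.neg

end Pool.Agent.Results.MP_37ff18_mp.TypicalCouplings
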